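import Pool.Agent.W973.SRR.Defs

/-!
SRR-BAS (helper549): basic facts about the occurrences of literals.
-/

set_option autoImplicit false

namespace Pool.Agent.W549.SRR

open Pool.Agent.W973.SRR Pool.Agent.NPC

theorem flat_cons (c : Lit ℕ × Lit ℕ × Lit ℕ) (ψ : CNF) :
    flat (c :: ψ) = c.1 :: c.2.1 :: c.2.2 :: flat ψ := by
  simp [flat]

theorem NO_eq (ψ : CNF) : NO ψ = 3 * ψ.length := by
  induction ψ with
  | nil => simp [NO, flat]
  | cons c ψ ih =>
    unfold NO at ih ⊢
    rw [flat_cons]
    simp only [List.length_cons]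
    omega

theorem lit_get (ψ : CNF) : ∀ (k : ℕ) (hk : k < ψ.length), lit ψ (3 * k) = (ψ[k]).1 ∧
    lit ψ (3 * k + 1) = (ψ[k]).2.1 ∧ lit ψ (3 * k + 2) = (ψ[k]).2.2 := by
  induction ψ with
  | nil => intro k hk; simp at hk
  | cons c ψ ih =>
    intro k hk
    unfold lit at ih ⊢
    rw [flat_cons]
    cases k with
    | zero => simp
    | succ k =>
      have hk' : k < ψ.length := by simpa using hk
      obtain ⟨h1, h2, h3⟩ := ih k hk'
      have e1 : 3 * (k + 1) = 3 * k + 3 := by ring
      rw [e1]
      refine ⟨?_, ?_, ?_⟩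
      · rw [← List.getD_cons_succ (x := c.2.2), ← List.getD_cons_succ (x := c.2.1),
          ← List.getD_cons_succ (x := c.1)] at h1
        simpa using h1
      · rw [← List.getD_cons_succ (x := c.2.2), ← List.getD_cons_succ (x := c.2.1),
          ← List.getD_cons_succ (x := c.1)] at h2
        simpa using h2
      · rw [← List.getD_cons_succ (x := c.2.2), ← List.getD_cons_succ (x := c.2.1),
          ← List.getD_cons_succ (x := c.1)] at h3
        simpa using h3

theorem bas : S_BAS := by
  intro ψ
  refine ⟨NO_eq ψ, ?_, ?_⟩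
  · intro R
    constructor
    · intro h k hk
      obtain ⟨h1, h2, h3⟩ := lit_get ψ k hk
      rw [h1, h2, h3]
      exact h _ (List.getElem_mem hk)
    · intro h c hc
      obtain ⟨k, hk, rfl⟩ := List.getElem_of_mem hc
      obtain ⟨h1, h2, h3⟩ := lit_get ψ k hk
      have := h k hk
      rw [h1, h2, h3] at this
      exact this
  · intro hd i hi
    rw [NO_eq] at hi ⊢
    have hk : i / 3 < ψ.length := by omega
    obtain ⟨h1, h2, h3⟩ := lit_get ψ (i / 3) hk
    have hdc := hd _ (List.getElem_mem hk)
    have hr : i % 3 = 0 ∨ i % 3 = 1 ∨ i % 3 = 2 := by omega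
    unfold nr pr vv
    rcases hr with hr | hr | hr
    · have e : i = 3 * (i / 3) := by omega
      have ei : lit ψ i = lit ψ (3 * (i / 3)) := congrArg (lit ψ) e
      rw [hr, ei]
      simp only [Nat.zero_add, Nat.reduceAdd, Nat.reduceMod]
      rw [h1, h2, h3]
      refine ⟨by omega, by omega, ?_⟩
      tauto
    · have e : i = 3 * (i / 3) + 1 := by omega
      have ei : lit ψ i = lit ψ (3 * (i / 3) + 1) := congrArg (lit ψ) e
      rw [hr, ei]
      simp only [Nat.reduceAdd, Nat.reduceMod, Nat.add_zero]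
      rw [h1, h2, h3]
      refine ⟨by omega, by omega, ?_⟩
      tauto
    · have e : i = 3 * (i / 3) + 2 := by omega
      have ei : lit ψ i = lit ψ (3 * (i / 3) + 2) := congrArg (lit ψ) e
      rw [hr, ei]
      simp only [Nat.reduceAdd, Nat.reduceMod, Nat.add_zero]
      rw [h1, h2, h3]
      refine ⟨by omega, by omega, ?_⟩
      tauto

end Pool.Agent.W549.SRR
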